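import Pool.Agent.Shared.Matching.Theory
import Pool.Agent.Shared.PolyTime.Extra

/-!
A polynomial-time test for the existence of a perfect matching in a finite graph.
-/

namespace Pool.Agent.Shared.Matching

open Relation N68a2faeb Pool.Agent.Shared.PolyTime N487b59b3

variable {β : Type} [DecidableEq β]

/-- The involution stored in a list of pairs. -/
def get (t : List (β × β)) (v : β) : β := (t.lookup v).getD v

/-- The arcs of `E` used by `f`. -/
def tab (E : List (β × β)) (f : β → β) : List (β × β) := E.filter fun e => f e.1 = e.2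

/-- One guided exchange on tables. -/
def gd (E N : List (β × β)) (p : List (β × β) × β) : List (β × β) × β :=
  if get p.1 p.2 = p.2 ∧ get N p.2 ≠ p.2 then
    (tab E (sw (get p.1) p.2 (get N p.2)), get p.1 (get N p.2)) else p

/-- Several guided exchanges. -/
def gdi (V : List β) (E N : List (β × β)) (p : List (β × β) × β) (i : ℕ) : List (β × β) × β :=
  (gd E N)^[min i V.length] p

open Classical in
/-- A component switch on tables. -/
noncomputable def sxl (V : List β) (E N N' : List (β × β)) (v : β) : List (β × β) :=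
  tab E fun x => if ReflTransGen (fun a b => b ∈ V ∧ (b = get N a ∨ b = get N' a)) v x
    then get N' x else get N x

/-- All candidates produced from a family. -/
noncomputable def cands (V : List β) (E : List (β × β)) (L : List (List (β × β))) :
    List (List (β × β)) :=
  L.flatMap fun N => L.flatMap fun N' => V.map (sxl V E N N') ++
    (E.filter fun e => get N e.1 = e.1).flatMap fun e => (List.range (V.length + 1)).map fun i =>
      (gdi V E N' (tab E (sw (get N) e.1 e.2), get N e.2) i).1

/-- The number of exposed vertices. -/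
def dfl (V : List β) (t : List (β × β)) : ℕ := (V.dedup.filter fun v => get t v = v).length

/-- One round of the saturation procedure. -/
noncomputable def step (V : List β) (E : List (β × β)) (L : List (List (β × β))) :
    List (List (β × β)) :=
  ((cands V E L).find? fun c => dfl V c < dfl V (L.headD [])).elim
    (((cands V E L).find? fun c => dfl V c = dfl V (L.headD []) ∧
      ¬∀ a ∈ V, get c a = a → ∀ b ∈ V, ∃ N ∈ L, get N a = a ∧ get N b = get c b).elim L
      fun c => c :: L) fun c => [c]

/-- The test. -/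
noncomputable def test (V : List β) (E : List (β × β)) : Bool :=
  dfl V (((step V E)^[(V.length + 1) * (V.length ^ 3 + 1)] [[]]).headD []) = 0

theorem get_cases (t : List (β × β)) (v : β) : get t v = v ∨ (v, get t v) ∈ t := by
  unfold get
  cases h : t.lookup v with
  | none => exact Or.inl rfl
  | some b =>
    obtain ⟨l, r, rfl, -⟩ := List.lookup_eq_some_iff.1 h
    simp

theorem get_tab {E : List (β × β)} {f : β → β} (h : ∀ v, f v ≠ v → (v, f v) ∈ E) :
    get (tab E f) = f := by
  funext v
  unfold get
  cases e : (tab E f).lookup v with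
  | none =>
    by_contra a
    have := List.lookup_eq_none_iff.1 e (v, f v)
      (List.mem_filter.2 ⟨h v (Ne.symm a), by simp⟩)
    simp at this
  | some b =>
    obtain ⟨l, r, e', -⟩ := List.lookup_eq_some_iff.1 e
    have : (v, b) ∈ tab E f := by simp [e']
    exact (of_decide_eq_true (List.mem_filter.1 this).2).symm

theorem gdi_sub {V : List β} {E N : List (β × β)} {p : List (β × β) × β} (h : p.1.Sublist E)
    (i : ℕ) : (gdi V E N p i).1.Sublist E :=
  Function.Iterate.rec (fun q : List (β × β) × β => q.1.Sublist E) h (fun q hq => by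
    unfold gd; split_ifs
    exacts [List.filter_sublist, hq]) _

theorem cands_sub {V : List β} {E c : List (β × β)} {L : List (List (β × β))}
    (h : c ∈ cands V E L) : c.Sublist E := by
  simp only [cands, List.mem_flatMap, List.mem_append, List.mem_map] at h
  obtain ⟨N, -, N', -, ⟨v, -, rfl⟩ | ⟨e, -, i, -, rfl⟩⟩ := h
  exacts [List.filter_sublist, gdi_sub List.filter_sublist i]

section time

variable {α : Type} [N487b59b3 α] [N487b59b3 β]

theorem bsize_get (t : List (β × β)) (v : β) : bsize (get t v) ≤ max (bsize t) (bsize v) := by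
  rcases get_cases t v with h | h
  · rw [h]; exact le_max_right _ _
  · have := bsize_le_of_mem h
    rw [bsize_pair] at this
    omega

@[fun_prop] theorem get_pt {t : α → List (β × β)} {v : α → β} (ht : IsPolyTime t)
    (hv : IsPolyTime v) : IsPolyTime fun x => get (t x) (v x) := by
  unfold get; fun_prop

@[fun_prop] theorem gdi_pt {V : α → List β} {E N : α → List (β × β)}
    {p : α → List (β × β) × β} {i : α → ℕ} (hV : IsPolyTime V) (hE : IsPolyTime E)
    (hN : IsPolyTime N) (hp : IsPolyTime p) (hi : IsPolyTime i) :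
    IsPolyTime fun x => gdi (V x) (E x) (N x) (p x) (i x) := by
  refine IsPolyTime.iterate_inv (f := fun x => gd (E x) (N x)) (by unfold gd tab sw; fun_prop) hp
    (by fun_prop) (by fun_prop) (fun x s => bsize s.1 ≤ bsize (E x) + bsize (N x) + bsize (p x) ∧
      bsize s.2 ≤ bsize (E x) + bsize (N x) + bsize (p x))
    (fun x => by rw [bsize_prod (p x)]; omega) (fun x s hs => ?_)
    (fun x => 3 * (bsize (E x) + bsize (N x) + bsize (p x)) + 1) (by fun_prop)
    fun x s hs => by rw [bsize_prod s]; omega
  unfold gd; split_ifs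
  · have h1 := bsize_get s.1 (get (N x) s.2)
    have h2 := bsize_get (N x) s.2
    have h3 : bsize (tab (E x) (sw (get s.1) s.2 (get (N x) s.2))) ≤ _ :=
      bsize_sublist List.filter_sublist
    constructor <;> dsimp only <;> omega
  · exact hs

@[fun_prop] theorem sxl_pt {V : α → List β} {E N N' : α → List (β × β)} {v : α → β}
    (hV : IsPolyTime V) (hE : IsPolyTime E) (hN : IsPolyTime N) (hN' : IsPolyTime N')
    (hv : IsPolyTime v) : IsPolyTime fun x => sxl (V x) (E x) (N x) (N' x) (v x) := by
  classical
  have := IsPolyTime.decide_reflTransGen (α := α × β × β) (V := fun y => V y.1)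
    (R := fun y a b => b = get (N y.1) a ∨ b = get (N' y.1) a) (u := fun y => v y.1)
    (v := fun y => y.2.1) (inst := fun _ => inferInstance) (by fun_prop) (by fun_prop)
    (by fun_prop) (by fun_prop)
  unfold sxl tab
  fun_prop

@[fun_prop] theorem dfl_pt {V : α → List β} {t : α → List (β × β)} (hV : IsPolyTime V)
    (ht : IsPolyTime t) : IsPolyTime fun x => dfl (V x) (t x) := by
  unfold dfl; fun_prop

@[fun_prop] theorem step_pt {V : α → List β} {E : α → List (β × β)}
    {L : α → List (List (β × β))} (hV : IsPolyTime V) (hE : IsPolyTime E) (hL : IsPolyTime L) :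
    IsPolyTime fun x => step (V x) (E x) (L x) := by
  have : IsPolyTime fun x => cands (V x) (E x) (L x) := by unfold cands tab sw; fun_prop
  unfold step
  fun_prop

@[fun_prop] theorem test_pt {V : α → List β} {E : α → List (β × β)} (hV : IsPolyTime V)
    (hE : IsPolyTime E) : IsPolyTime fun x => test (V x) (E x) := by
  have : IsPolyTime fun x => (step (V x) (E x))^[((V x).length + 1) * ((V x).length ^ 3 + 1)]
      [[]] := by
    refine IsPolyTime.iterate_grow (by fun_prop) (by fun_prop) (by fun_prop) (by fun_prop)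
      (fun x => 2 * bsize (E x) + 1) (by fun_prop) fun x s => ?_
    unfold step
    rcases h : List.find? _ _ with _ | c
    · rcases h' : List.find? _ (cands (V x) (E x) s) with _ | c
      · simp
      · have := bsize_sublist (cands_sub (List.mem_of_find?_eq_some h'))
        simp; omega
    · have := bsize_sublist (cands_sub (List.mem_of_find?_eq_some h))
      simp; omega
  have := dfl_pt hV (t := fun x => ((step (V x) (E x))^[((V x).length + 1) *
    ((V x).length ^ 3 + 1)] [[]]).headD []) (by fun_prop)
  unfold test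
  fun_prop

end time

section correct

variable {G : Gr β} {V : List β} {E N N' c : List (β × β)} {L : List (List (β × β))}

/-- The lists describe the graph. -/
structure Rep (G : Gr β) (V : List β) (E : List (β × β)) : Prop where
  hV : ∀ v, v ∈ G.S ↔ v ∈ V
  hE : ∀ u v, G.adj u v ↔ (u, v) ∈ E

namespace Rep

variable (R : Rep G V E)
include R

theorem get_tab {f : β → β} (h : G.IsM f) : get (tab E f) = f :=
  Matching.get_tab fun v e => (R.hE _ _).1 (h.2 v e)

theorem dfl_eq (t : List (β × β)) : dfl V t = G.df (get t) := by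
  rw [dfl, Gr.df, ← List.toFinset_card_of_nodup (V.nodup_dedup.filter _)]
  congr 1
  ext v
  simp [R.hV]

theorem card_le : G.S.card ≤ V.length :=
  (Finset.card_le_card (t := V.toFinset) fun v => by simp [R.hV]).trans V.toFinset_card_le

theorem get_sxl (h : G.IsM (get N)) (h' : G.IsM (get N')) {v : β} (hv : v ∈ G.S) :
    get (sxl V E N N' v) = sx (get N) (get N') v := by
  rw [← R.get_tab (h.sx h' v), sxl]
  congr 2
  funext x
  have : ReflTransGen (fun a b => b ∈ V ∧ (b = get N a ∨ b = get N' a)) v x ↔
      Cp (get N) (get N') v x := by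
    refine ⟨fun e => ReflTransGen.mono (fun _ _ e => e.2) _ _ e, fun e => ?_⟩
    suffices x ∈ G.S ∧ _ from this.2
    induction e with
    | refl => exact ⟨hv, .refl⟩
    | tail _ e ih =>
      have : _ ∈ G.S := e.elim (fun e => e ▸ h.mem ih.1) fun e => e ▸ h'.mem ih.1
      exact ⟨this, ih.2.tail ⟨(R.hV _).1 this, e⟩⟩
  classical exact if_congr this rfl rfl

theorem gdi_isM (h : G.IsM (get N)) {p : List (β × β) × β} (hp : G.IsM (get p.1)) (i : ℕ) :
    G.IsM (get (gdi V E N p i).1) :=
  Function.Iterate.rec (fun q : List (β × β) × β => G.IsM (get q.1)) hp (fun q hq => by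
    unfold gd; split_ifs with e
    · have := hq.sw e.1 (h.2 _ e.2)
      rwa [R.get_tab this]
    · exact hq) _

theorem chain (h : G.IsM (get N)) {p : List (β × β) × β} (hp : G.IsM (get p.1))
    {q : (β → β) × β} (e : ReflTransGen (Step (get N)) (get p.1, p.2) q) :
    ∃ i ≤ V.length, get (gdi V E N p i).1 = q.1 := by
  suffices ∃ i, i + (G.S.filter fun x => q.1 x ≠ get N x).card ≤ G.S.card ∧
      get ((gd E N)^[i] p).1 = q.1 ∧ ((gd E N)^[i] p).2 = q.2 by
    obtain ⟨i, h1, h2, -⟩ := this
    have : i ≤ V.length := by have := R.card_le; omega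
    exact ⟨i, this, by rwa [gdi, min_eq_left this]⟩
  induction e with
  | refl => exact ⟨0, by simpa using Finset.card_filter_le _ _, rfl, rfl⟩
  | @tail q q' e e' ih =>
    obtain ⟨i, h1, h2, h3⟩ := ih
    obtain ⟨a1, a2, rfl⟩ := e'
    have b1 := (Gr.step_isM h e hp).1
    have b2 := h.2 _ a2
    refine ⟨i + 1, ?_, ?_⟩
    · have : (G.S.filter fun x => sw q.1 q.2 (get N q.2) x ≠ get N x).card <
          (G.S.filter fun x => q.1 x ≠ get N x).card := by
        refine (Finset.card_le_card fun x => ?_).trans_lt
          (Finset.card_erase_lt_of_mem (a := q.2) (by simp [G.mem b2, a1, a2.symm]))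
        have c1 := b1.1
        have c2 := h.1
        simp only [Finset.mem_filter, Finset.mem_erase, sw]
        grind
      dsimp only
      omega
    · rw [Function.iterate_succ_apply', gd, h2, h3, if_pos ⟨a1, a2⟩]
      exact ⟨R.get_tab (b1.sw a1 b2), rfl⟩

theorem cands_isM (hL : ∀ N ∈ L, G.IsM (get N)) (h : c ∈ cands V E L) : G.IsM (get c) := by
  simp only [cands, List.mem_flatMap, List.mem_append, List.mem_map, List.mem_filter] at h
  obtain ⟨N, hN, N', hN', ⟨v, hv, rfl⟩ | ⟨e, ⟨h1, h2⟩, i, -, rfl⟩⟩ := h
  · rw [R.get_sxl (hL _ hN) (hL _ hN') ((R.hV _).2 hv)]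
    exact (hL _ hN).sx (hL _ hN') v
  · have := (hL _ hN).sw (of_decide_eq_true h2) ((R.hE _ _).2 h1)
    exact R.gdi_isM (hL _ hN') (by rwa [R.get_tab this]) i

theorem sat {d : ℕ} (hL : ∀ N ∈ L, G.IsM (get N) ∧ G.df (get N) = d)
    (h : ∀ c ∈ cands V E L, d ≤ G.df (get c) ∧
      (G.df (get c) = d → G.Cov (get '' {N | N ∈ L}) (get c))) :
    G.Sat (get '' {N | N ∈ L}) d := by
  refine ⟨?_, ?_, ?_, ?_⟩
  · rintro _ ⟨N, hN, rfl⟩; exact (hL N hN).1
  · rintro _ ⟨N, hN, rfl⟩; exact (hL N hN).2
  · rintro _ ⟨N, hN, rfl⟩ _ ⟨N', hN', rfl⟩ v u hv a q e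
    have b := R.get_tab ((hL N hN).1.sw hv a)
    obtain ⟨i, h1, h2⟩ := R.chain (hL N' hN').1 (p := (tab E (sw (get N) v u), get N u))
      (by rw [b]; exact (hL N hN).1.sw hv a) (q := q) (by rwa [b])
    rw [← h2]
    refine h _ ?_
    simp only [cands, List.mem_flatMap, List.mem_append, List.mem_map, List.mem_filter]
    exact ⟨N, hN, N', hN', Or.inr ⟨(v, u), ⟨(R.hE _ _).1 a, by simpa using hv⟩, i,
      List.mem_range.2 (by omega), rfl⟩⟩
  · rintro _ ⟨N, hN, rfl⟩ _ ⟨N', hN', rfl⟩ v hv
    rw [← R.get_sxl (hL N hN).1 (hL N' hN').1 hv]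
    refine h _ ?_
    simp only [cands, List.mem_flatMap, List.mem_append, List.mem_map]
    exact ⟨N, hN, N', hN', Or.inl ⟨v, (R.hV _).1 hv, rfl⟩⟩

/-- The signatures not yet seen. -/
def miss (G : Gr β) (L : List (List (β × β))) : Finset (β × β × β) :=
  (G.S ×ˢ G.S ×ˢ G.S).filter fun s => ¬∃ N ∈ L, get N s.1 = s.1 ∧ get N s.2.1 = s.2.2

theorem miss_le (L : List (List (β × β))) : (miss G L).card ≤ V.length ^ 3 := by
  refine (Finset.card_filter_le _ _).trans ?_
  have := R.card_le
  simp only [Finset.card_product]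
  calc _ ≤ V.length * (V.length * V.length) := by gcongr
    _ = _ := by ring

/-- The invariant of the procedure. -/
def Inv (G : Gr β) (L : List (List (β × β))) : Prop :=
  L.headD [] ∈ L ∧ ∀ N ∈ L, G.IsM (get N) ∧ G.df (get N) = G.df (get (L.headD []))

/-- The potential of the procedure. -/
def pot (G : Gr β) (V : List β) (L : List (List (β × β))) : ℕ :=
  G.df (get (L.headD [])) * (V.length ^ 3 + 1) + (miss G L).card

theorem step_spec (h : Inv G L) : Inv G (step V E L) ∧
    ((step V E L = L ∧ G.Sat (get '' {N | N ∈ L}) (G.df (get (L.headD [])))) ∨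
      pot G V (step V E L) < pot G V L) := by
  have hc : ∀ c ∈ cands V E L, G.IsM (get c) := fun c => R.cands_isM fun N hN => (h.2 N hN).1
  unfold step
  rcases h1 : List.find? _ _ with _ | c
  · rcases h2 : List.find? _ (cands V E L) with _ | c
    · refine ⟨h, Or.inl ⟨rfl, R.sat h.2 fun c hc' => ⟨?_, fun e a ha ha' b hb => ?_⟩⟩⟩
      · simpa [R.dfl_eq] using List.find?_eq_none.1 h1 c hc'
      · have := List.find?_eq_none.1 h2 c hc'
        simp only [R.dfl_eq, e, true_and, decide_eq_true_eq, not_not] at this
        obtain ⟨N, b1, b2⟩ := this a ((R.hV _).1 ha) ha' b ((R.hV _).1 hb)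
        exact ⟨_, ⟨N, b1, rfl⟩, b2⟩
    · have a1 := hc c (List.mem_of_find?_eq_some h2)
      have a2 := List.find?_some h2
      simp only [R.dfl_eq, decide_eq_true_eq] at a2
      obtain ⟨a2, a3⟩ := a2
      push Not at a3
      obtain ⟨a, b1, b2, b, b3, b4⟩ := a3
      refine ⟨⟨by simp, fun N hN => ?_⟩, Or.inr ?_⟩
      · rcases List.mem_cons.1 hN with rfl | hN
        exacts [⟨a1, rfl⟩, ⟨(h.2 N hN).1, (h.2 N hN).2.trans a2.symm⟩]
      · have : (miss G (c :: L)).card < (miss G L).card := by
          refine Finset.card_lt_card ⟨fun s => ?_, fun e => ?_⟩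
          · simp only [miss, Finset.mem_filter, List.mem_cons]
            grind
          · have := @e (a, b, get c b) (by
              simp only [miss, Finset.mem_filter, Finset.mem_product, (R.hV _).2 b1, (R.hV _).2 b3,
                a1.mem ((R.hV _).2 b3), true_and]
              grind)
            simp [miss, b2] at this
        simp only [pot, Option.elim, List.headD_cons, a2]
        omega
  · have a1 := hc c (List.mem_of_find?_eq_some h1)
    have a2 := List.find?_some h1
    simp only [R.dfl_eq, decide_eq_true_eq] at a2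
    refine ⟨⟨by simp, by simpa using a1⟩, Or.inr ?_⟩
    have := R.miss_le [c]
    have := Nat.mul_le_mul_right (V.length ^ 3 + 1) (Nat.succ_le_of_lt a2)
    simp only [pot, Option.elim, List.headD_cons, Nat.succ_mul] at this ⊢
    omega

theorem test_iff : test V E = true ↔ ∃ M, G.IsM M ∧ ∀ v ∈ G.S, M v ≠ v := by
  have key : ∀ k, Inv G ((step V E)^[k] [[]]) ∧
      (step V E ((step V E)^[k] [[]]) = (step V E)^[k] [[]] ∧
      G.Sat (get '' {N | N ∈ (step V E)^[k] [[]]}) (G.df (get (((step V E)^[k] [[]]).headD []))) ∨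
      k + pot G V ((step V E)^[k] [[]]) ≤ pot G V [[]]) := by
    intro k
    induction k with
    | zero => exact ⟨⟨by simp, by simp [Gr.IsM, get]⟩, Or.inr (by simp)⟩
    | succ k ih =>
      rw [Function.iterate_succ_apply']
      obtain ⟨a1, a2 | a2⟩ := R.step_spec ih.1
      · exact ⟨a1, Or.inl (by rw [a2.1]; exact a2)⟩
      · refine ⟨a1, Or.inr ?_⟩
        have := ih.2.resolve_left fun e => by rw [e.1] at a2; omega
        omega
  obtain ⟨⟨h1, h2⟩, h3⟩ := key ((V.length + 1) * (V.length ^ 3 + 1))
  rw [test, decide_eq_true_eq, R.dfl_eq, Gr.df, Finset.card_eq_zero, Finset.filter_eq_empty_iff]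
  refine ⟨fun h => ⟨_, (h2 _ h1).1, h⟩, fun ⟨M, a1, a2⟩ => ?_⟩
  refine (h3.resolve_right ?_).2.perfect ⟨_, h1, rfl⟩ a1 a2
  have b1 := R.miss_le [[]]
  have b2 := Nat.mul_le_mul_right (V.length ^ 3 + 1)
    ((Finset.card_filter_le G.S fun v => get [] v = v).trans R.card_le)
  simp only [pot, List.headD_cons, Nat.succ_mul, Gr.df] at b2 ⊢
  omega

end Rep

end correct

end Pool.Agent.Shared.Matching
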