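import Mathlib

/-!
A saturated family of matchings certifies that there is no perfect matching
(Gallai–Edmonds structure, after Lovász and Plummer).
-/

namespace Pool.Agent.Shared.Matching

open Relation

/-- A finite graph. -/
structure Gr (β : Type) where
  S : Finset β
  adj : β → β → Prop
  symm : ∀ {u v}, adj u v → adj v u
  ne : ∀ {u v}, adj u v → u ≠ v
  mem : ∀ {u v}, adj u v → u ∈ S

variable {β : Type} [DecidableEq β]

/-- The exposed vertex `w` is matched to `u`, whose old partner becomes exposed. -/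
def sw (m : β → β) (w u : β) : β → β :=
  fun x => if x = w then u else if x = u then w else if x = m u then x else m x

/-- One exchange guided by the matching `N`. -/
def Step (N : β → β) (p q : (β → β) × β) : Prop :=
  p.1 p.2 = p.2 ∧ N p.2 ≠ p.2 ∧ q = (sw p.1 p.2 (N p.2), p.1 (N p.2))

/-- The component of `v` in the union of two matchings. -/
def Cp (N N' : β → β) : β → β → Prop := ReflTransGen fun a b => b = N a ∨ b = N' a

open Classical in
/-- `N` is replaced by `N'` on the component of `v`. -/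
noncomputable def sx (N N' : β → β) (v : β) : β → β := fun x => if Cp N N' v x then N' x else N x

/-- Vertices at even distance from `v` on the alternating path. -/
inductive Ev (N N' : β → β) (v : β) : β → Prop
  | base : Ev N N' v v
  | step {w} : Ev N N' v w → N' w ≠ w → Ev N N' v (N (N' w))

namespace Gr

variable (G : Gr β)

/-- A matching, as an involution. -/
def IsM (m : β → β) : Prop := (∀ v, m (m v) = v) ∧ ∀ v, m v ≠ v → G.adj v (m v)

/-- The number of exposed vertices. -/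
def df (m : β → β) : ℕ := (G.S.filter fun v => m v = v).card

/-- Every exposed vertex together with an edge of `m` occurs in a member of `L`. -/
def Cov (L : Set (β → β)) (m : β → β) : Prop :=
  ∀ a ∈ G.S, m a = a → ∀ b ∈ G.S, ∃ N ∈ L, N a = a ∧ N b = m b

/-- A family of matchings that cannot be improved. -/
structure Sat (L : Set (β → β)) (d : ℕ) : Prop where
  isM : ∀ N ∈ L, G.IsM N
  df_eq : ∀ N ∈ L, G.df N = d
  s1 : ∀ N ∈ L, ∀ N' ∈ L, ∀ v u, N v = v → G.adj v u → ∀ q,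
    ReflTransGen (Step N') (sw N v u, N u) q → d ≤ G.df q.1 ∧ (G.df q.1 = d → G.Cov L q.1)
  s2 : ∀ N ∈ L, ∀ N' ∈ L, ∀ v ∈ G.S,
    d ≤ G.df (sx N N' v) ∧ (G.df (sx N N' v) = d → G.Cov L (sx N N' v))

variable {G} {m N N' : β → β} {w u v : β}

omit [DecidableEq β] in
theorem IsM.mem (h : G.IsM m) (hv : v ∈ G.S) : m v ∈ G.S := by
  by_cases e : m v = v
  exacts [e.symm ▸ hv, G.mem (G.symm (h.2 v e))]

theorem IsM.sw (h : G.IsM m) (hw : m w = w) (a : G.adj w u) : G.IsM (sw m w u) := by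
  have h1 := h.1
  have n := G.ne a
  refine ⟨fun x => ?_, fun x => ?_⟩
  · unfold Matching.sw; grind
  · have := h.2 x
    have := G.symm a
    unfold Matching.sw; grind

theorem df_sw_le (h : G.IsM m) (hw : m w = w) (a : G.adj w u) : G.df (sw m w u) ≤ G.df m := by
  have n := G.ne a
  have h1 := h.1
  refine (Finset.card_le_card (t := insert (m u) ((G.S.filter fun v => m v = v).erase w))
    fun x => ?_).trans ((Finset.card_insert_le _ _).trans_eq
      (Finset.card_erase_add_one (by simp [hw, G.mem a])))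
  simp only [Finset.mem_filter, Finset.mem_insert, Finset.mem_erase, sw]
  grind

theorem df_sw_lt (hw : m w = w) (a : G.adj w u) (hu : m u = u) : G.df (sw m w u) < G.df m := by
  have n := G.ne a
  refine (Finset.card_le_card (t := (G.S.filter fun v => m v = v).erase w) fun x => ?_).trans_lt
    (Finset.card_erase_lt_of_mem (by simp [hw, G.mem a]))
  simp only [Finset.mem_filter, Finset.mem_erase, sw]
  grind

theorem sw_exp (h : G.IsM m) (hw : m w = w) (a : G.adj w u) (hu : m u ≠ u) :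
    sw m w u (m u) = m u := by
  have n := G.ne a
  have h1 := h.1
  unfold sw; grind

theorem step_isM (hN : G.IsM N) {p q : (β → β) × β} (h : ReflTransGen (Step N) p q)
    (hp : G.IsM p.1) : G.IsM q.1 ∧ G.df q.1 ≤ G.df p.1 := by
  induction h with
  | refl => exact ⟨hp, le_rfl⟩
  | tail _ h ih =>
    obtain ⟨h1, h2, rfl⟩ := h
    exact ⟨ih.1.sw h1 (hN.2 _ h2), (df_sw_le ih.1 h1 (hN.2 _ h2)).trans ih.2⟩

omit [DecidableEq β] in
theorem cp_iff (h : G.IsM N) (h' : G.IsM N') {x : β} :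
    (Cp N N' v (N x) ↔ Cp N N' v x) ∧ (Cp N N' v (N' x) ↔ Cp N N' v x) :=
  ⟨⟨fun e => e.tail (Or.inl (h.1 x).symm), fun e => e.tail (Or.inl rfl)⟩,
    ⟨fun e => e.tail (Or.inr (h'.1 x).symm), fun e => e.tail (Or.inr rfl)⟩⟩

omit [DecidableEq β] in
theorem cp_refl : Cp N N' v v := ReflTransGen.refl

omit [DecidableEq β] in
theorem cp_comm {x : β} : Cp N N' v x ↔ Cp N' N v x := by
  simp only [Cp, or_comm]

omit [DecidableEq β] in
theorem IsM.sx (h : G.IsM N) (h' : G.IsM N') (v : β) : G.IsM (sx N N' v) := by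
  refine ⟨fun x => ?_, fun x => ?_⟩ <;> by_cases e : Cp N N' v x
  · simp [Matching.sx, e, (cp_iff h h').2, h'.1]
  · simp [Matching.sx, e, (cp_iff h h').1, h.1]
  · simpa [Matching.sx, e] using h'.2 x
  · simpa [Matching.sx, e] using h.2 x

theorem df_sx (N N' : β → β) (v : β) :
    G.df (sx N N' v) + G.df (sx N' N v) = G.df N + G.df N' := by
  simp only [df, Finset.card_filter, ← Finset.sum_add_distrib]
  refine Finset.sum_congr rfl fun x _ => ?_
  by_cases e : Cp N N' v x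
  · simp [sx, e, cp_comm.1 e, add_comm]
  · simp [sx, e, mt cp_comm.1 e]

namespace Sat

variable {L : Set (β → β)} {d : ℕ} (H : G.Sat L d)

/-- Vertices exposed by a member of the family. -/
def D (G : Gr β) (L : Set (β → β)) (a : β) : Prop := a ∈ G.S ∧ ∃ N ∈ L, N a = a

include H

theorem first (hN : N ∈ L) (hN' : N' ∈ L) (hv : N v = v) (a : G.adj v u) {q : (β → β) × β}
    (h : ReflTransGen (Step N') (sw N v u, N u) q) :
    G.IsM q.1 ∧ q.1 q.2 = q.2 ∧ G.Cov L q.1 ∧ D G L q.2 := by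
  have key : ∀ q, ReflTransGen (Step N') (sw N v u, N u) q → G.IsM q.1 ∧ G.df q.1 = d :=
    fun q h => by
      have := step_isM (H.isM _ hN') h ((H.isM _ hN).sw hv a)
      exact ⟨this.1, le_antisymm (this.2.trans ((df_sw_le (H.isM _ hN) hv a).trans_eq
        (H.df_eq _ hN))) (H.s1 _ hN _ hN' _ _ hv a q h).1⟩
  have c := (H.s1 _ hN _ hN' _ _ hv a q h).2 (key q h).2
  have e : q.1 q.2 = q.2 ∧ q.2 ∈ G.S := by
    rcases h.cases_tail with rfl | ⟨p, h1, h2, h3, rfl⟩
    · refine ⟨sw_exp (H.isM _ hN) hv a fun e => ?_, (H.isM _ hN).mem (G.mem (G.symm a))⟩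
      exact (df_sw_lt hv a e).ne ((key _ h).2.trans (H.df_eq _ hN).symm)
    · have a' := (H.isM _ hN').2 _ h3
      refine ⟨sw_exp (key _ h1).1 h2 a' fun e => ?_, (key _ h1).1.mem (G.mem (G.symm a'))⟩
      exact (df_sw_lt h2 a' e).ne ((key _ h).2.trans (key _ h1).2.symm)
  obtain ⟨N2, b1, b2, -⟩ := c _ e.2 e.1 _ e.2
  exact ⟨(key q h).1, e.1, c, e.2, N2, b1, b2⟩

theorem swap (hN : N ∈ L) (hv : N v = v) (a : G.adj v u) : N u ≠ u ∧ D G L (N u) := by
  obtain ⟨-, h1, -, h2⟩ := H.first hN hN hv a ReflTransGen.refl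
  refine ⟨fun e => ?_, h2⟩
  have := G.ne a
  simp only [sw] at h1
  grind

theorem cov_sx (hN : N ∈ L) (hN' : N' ∈ L) (hv : v ∈ G.S) : G.Cov L (sx N N' v) := by
  have h1 := H.s2 _ hN _ hN' v hv
  have h2 := H.s2 _ hN' _ hN v hv
  have h3 := df_sx (G := G) N N' v
  rw [H.df_eq _ hN, H.df_eq _ hN'] at h3
  exact h1.2 (by omega)

theorem guided (hN : N ∈ L) (hN' : N' ∈ L) (hv : N v = v) (hv' : v ∈ G.S) {q : (β → β) × β}
    (h : ReflTransGen (Step N') (N, v) q) :
    G.IsM q.1 ∧ q.1 q.2 = q.2 ∧ G.Cov L q.1 ∧ D G L q.2 := by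
  rcases h.cases_head with rfl | ⟨p, ⟨-, h1, rfl⟩, h2⟩
  · exact ⟨H.isM _ hN, hv, fun a _ e b _ => ⟨N, hN, e, rfl⟩, hv', N, hN, hv⟩
  · exact H.first hN hN' hv ((H.isM _ hN').2 _ h1) h2

theorem ev (hN : N ∈ L) (hN' : N' ∈ L) (hv : N v = v) (hv' : v ∈ G.S) (h : Ev N N' v w) :
    ∃ m, ReflTransGen (Step N') (N, v) (m, w) ∧ (∀ x, m x = N x ∨ m x = N' x ∨ x = w) ∧
      (w = v ∨ m v = N' v) := by
  induction h with
  | base => exact ⟨N, .refl, fun x => Or.inl rfl, Or.inl rfl⟩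
  | @step w _ e ih =>
    obtain ⟨m, h1, h2, h3⟩ := ih
    obtain ⟨a1, a2, -⟩ := H.guided hN hN' hv hv' h1
    have b1 := a1.1
    have b2 := (H.isM _ hN').1
    have b3 : m (N' w) = N (N' w) := by have := h2 (N' w); grind
    refine ⟨sw m w (N' w), b3 ▸ h1.tail ⟨a2, e, rfl⟩, fun x => ?_, Or.inr ?_⟩
    · have := h2 x
      unfold sw; grind
    · unfold sw; grind

theorem ev_D (hN : N ∈ L) (hN' : N' ∈ L) (hv : N v = v) (hv' : v ∈ G.S) (h : Ev N N' v w) :
    D G L w := by
  obtain ⟨m, h1, -⟩ := H.ev hN hN' hv hv' h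
  exact (H.guided hN hN' hv hv' h1).2.2.2

theorem ev_ne (hN : N ∈ L) (hN' : N' ∈ L) (hv : N v = v) (hv' : v ∈ G.S) (h : Ev N N' v w)
    (e : N' w ≠ w) : N (N' w) ≠ N' w := by
  obtain ⟨m, h1, h2, -⟩ := H.ev hN hN' hv hv' h
  obtain ⟨a1, a2, -⟩ := H.guided hN hN' hv hv' h1
  obtain ⟨-, a3, -⟩ := H.guided hN hN' hv hv' (h1.tail ⟨a2, e, rfl⟩)
  have b1 := a1.1
  have b2 := (H.isM _ hN').1
  have := h2 (N' w)
  simp only [sw] at a3
  grind

theorem cp_ev (hN : N ∈ L) (hN' : N' ∈ L) (hv : N v = v) (hv' : v ∈ G.S) {x : β}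
    (h : Cp N N' v x) : (Ev N N' v x ∨ Ev N N' v (N' x)) ∧ (x ≠ v → N x ≠ x) := by
  have b1 := (H.isM _ hN).1
  have b2 := (H.isM _ hN').1
  have key : ∀ x, Ev N N' v x → x = v ∨ (Ev N N' v (N' (N x)) ∧ N x ≠ x) := by
    intro x hx
    cases hx with
    | base => exact Or.inl rfl
    | step h e => exact Or.inr ⟨by rwa [b1, b2], by rw [b1]; exact (H.ev_ne hN hN' hv hv' h e).symm⟩
  have k2 : Ev N N' v x ∨ Ev N N' v (N' x) := by
    induction h with
    | refl => exact Or.inl .base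
    | @tail a b _ h ih =>
      rcases h with rfl | rfl
      · by_cases e : Ev N N' v a
        · rcases key a e with rfl | e'
          exacts [Or.inl (hv.symm ▸ e), Or.inr e'.1]
        · have := (ih.resolve_left e).step (by rw [b2]; exact fun a' => e (a' ▸ ih.resolve_left e))
          rw [b2] at this
          exact Or.inl this
      · rw [b2]; exact ih.symm
  refine ⟨k2, fun hx => ?_⟩
  by_cases e : Ev N N' v x
  · exact ((key x e).resolve_left hx).2
  · have := H.ev_ne hN hN' hv hv' (k2.resolve_left e)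
      (by rw [b2]; exact fun a' => e (a' ▸ k2.resolve_left e))
    rwa [b2] at this

theorem claim1 (hN : N ∈ L) {x z : β} (hx : ¬D G L x) (hz : D G L z) (a : G.adj z x) :
    D G L (N x) := by
  obtain ⟨hz, Z, h1, h2⟩ := hz
  by_cases e : Cp Z N z x
  · exact H.ev_D h1 hN h2 hz (((H.cp_ev h1 hN h2 hz e).1).resolve_left
      fun e => hx (H.ev_D h1 hN h2 hz e))
  · obtain ⟨N2, b1, b2, b3⟩ := H.cov_sx hN h1 hz z hz
      (by rw [sx, if_pos cp_refl, h2]) x (G.mem (G.symm a))
    rw [sx, if_neg (mt cp_comm.1 e)] at b3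
    exact b3 ▸ (H.swap b1 b2 a).2

/-- Connected through exposable vertices. -/
def Cn (G : Gr β) (L : Set (β → β)) : β → β → Prop :=
  ReflTransGen fun a b => G.adj a b ∧ D G L a ∧ D G L b

theorem claimA {a b : β} (h : Cn G L a b) :
    ∀ N ∈ L, N a = a → b ≠ a → N b ≠ b ∧ D G L (N b) := by
  induction h using ReflTransGen.head_induction_on with
  | refl => exact fun _ _ _ e => absurd rfl e
  | @head a c h h' ih =>
    intro N hN ha hb
    obtain ⟨e, ⟨ha', -⟩, hc, C, hC, hc'⟩ := h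
    by_cases bc : b = c
    · exact bc ▸ H.swap hN ha e
    have hb' : b ∈ G.S := by
      rcases h'.cases_tail with e | ⟨_, _, e⟩
      exacts [absurd e bc, e.2.2.1]
    have k1 : Cp N C a c := by
      by_contra k
      obtain ⟨N2, b1, b2, b3⟩ := H.cov_sx hC hN ha' a ha'
        (by rw [sx, if_pos cp_refl, ha]) c hc
      rw [sx, if_neg (mt cp_comm.1 k), hc'] at b3
      exact (H.swap b1 b2 e).1 b3
    by_cases k2 : Cp N C a b
    swap
    · obtain ⟨N2, b1, b2, b3⟩ := H.cov_sx hN hC ha' c hc (by rw [sx, if_pos k1, hc']) b hb'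
      rw [sx, if_neg k2] at b3
      exact b3 ▸ ih N2 b1 b2 bc
    have n := (H.cp_ev hN hC ha ha' k2).2 hb
    refine ⟨n, ?_⟩
    have b1 := (H.isM _ hN).1
    have b2 := (H.isM _ hC).1
    have k3 : Cp C N c b := by
      refine cp_comm.1 (ReflTransGen.trans ?_ k2)
      clear k2 ih h' bc hc hc' e
      induction k1 with
      | refl => exact .refl
      | tail _ h ih => exact ReflTransGen.head (by grind) ih
    rcases (H.cp_ev hC hN hc' hc k3).1 with k | k
    swap
    · exact H.ev_D hC hN hc' hc k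
    have key : ∀ x, Ev C N c x → N x = x ∨ ∃ m, ReflTransGen (Step C) (sw N a c, N c) (m, N x) ∧
        ∀ y, m y = N y ∨ m y = C y ∨ y = N x ∨ y = a ∨ y = c := by
      have base : ∃ m, ReflTransGen (Step C) (sw N a c, N c) (m, N c) ∧
          ∀ y, m y = N y ∨ m y = C y ∨ y = N c ∨ y = a ∨ y = c :=
        ⟨_, .refl, fun y => by unfold sw; grind⟩
      intro x hx
      induction hx with
      | base => exact Or.inr base
      | @step x hx e' ih =>
        obtain ⟨m, h1, h2⟩ := ih.resolve_left e'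
        obtain ⟨a1, a2, -⟩ := H.first hN hC ha e h1
        have a3 := a1.1
        have a4 := H.ev_ne hC hN hc' hc hx e'
        by_cases f1 : C (N x) = a
        · exact Or.inl (f1 ▸ ha)
        by_cases f2 : C (N x) = c
        · exact Or.inr (f2 ▸ base)
        have b3 : m (C (N x)) = N (C (N x)) := by have := h2 (C (N x)); grind
        refine Or.inr ⟨sw m (N x) (C (N x)), b3 ▸ h1.tail ⟨a2, a4, rfl⟩, fun y => ?_⟩
        have := h2 y
        unfold sw; grind
    obtain ⟨m, h1, -⟩ := (key b k).resolve_left n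
    exact (H.first hN hC ha e h1).2.2.2

omit H [DecidableEq β] in
theorem Cn.symm {a b : β} (h : Cn G L a b) : Cn G L b a := by
  induction h with
  | refl => exact .refl
  | tail _ h ih => exact ReflTransGen.head ⟨G.symm h.1, h.2.2, h.2.1⟩ ih

theorem claimB (hN : N ∈ L) {s t : β} (hs : D G L s) (ht : D G L t) (h : Cn G L s t)
    (h1 : N s = s ∨ ¬D G L (N s)) (h2 : N t = t ∨ ¬D G L (N t)) : s = t := by
  by_contra e
  rcases h1 with h1 | h1
  · have := H.claimA h N hN h1 (Ne.symm e); tauto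
  rcases h2 with h2 | h2
  · have := H.claimA h.symm N hN h2 e; tauto
  obtain ⟨hs, Z, a1, a2⟩ := hs
  by_cases k : Cp Z N s t
  · obtain ⟨m, c1, -, c2⟩ := H.ev a1 hN a2 hs
      ((H.cp_ev a1 hN a2 hs k).1.resolve_right fun k => h2 (H.ev_D a1 hN a2 hs k))
    obtain ⟨-, c3, c4, -⟩ := H.guided a1 hN a2 hs c1
    obtain ⟨N2, b1, b2, b3⟩ := c4 t ht.1 c3 s hs
    have := (H.claimA h.symm N2 b1 b2 e).2
    rw [b3] at this
    exact h1 (by simpa [c2.resolve_left (Ne.symm e)] using this)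
  · obtain ⟨N2, b1, b2, b3⟩ := H.cov_sx hN a1 hs s hs
      (by rw [sx, if_pos cp_refl, a2]) t ht.1
    rw [sx, if_neg (mt cp_comm.1 k)] at b3
    exact h2 (b3 ▸ (H.claimA h N2 b1 b2 (Ne.symm e)).2)

theorem leave {M : β → β} (hM : G.IsM M) (hp : ∀ v ∈ G.S, M v ≠ v) {a : β} (ha : D G L a) :
    ∃ t, Cn G L a t ∧ D G L t ∧ ¬D G L (M t) := by
  classical
  by_contra hc
  push Not at hc
  have hD : ∀ t, Cn G L a t → D G L t := fun t ht => by
    rcases ht.cases_tail with rfl | ⟨_, _, e⟩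
    exacts [ha, e.2.2]
  obtain ⟨ha', Z, a1, a2⟩ := ha
  have a3 := H.isM _ a1
  set T := G.S.filter (Cn G L a) with hT
  have s1 : ∑ _x ∈ T, (1 : ZMod 2) = 0 := Finset.sum_involution (fun x _ => M x)
    (fun _ _ => rfl) (fun x hx _ => hp x (Finset.mem_filter.1 hx).1) (fun x hx => by
      obtain ⟨b1, b2⟩ := Finset.mem_filter.1 hx
      exact Finset.mem_filter.2 ⟨hM.mem b1,
        b2.tail ⟨hM.2 x (hp x b1), hD x b2, hc x b2 (hD x b2)⟩⟩) fun x _ => hM.1 x
  have s2 : ∑ _x ∈ T.erase a, (1 : ZMod 2) = 0 := Finset.sum_involution (fun x _ => Z x)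
    (fun _ _ => rfl) (fun x hx _ => (H.claimA (Finset.mem_filter.1 (Finset.mem_erase.1 hx).2).2
      Z a1 a2 (Finset.mem_erase.1 hx).1).1) (fun x hx => by
      obtain ⟨b0, hx⟩ := Finset.mem_erase.1 hx
      obtain ⟨b1, b2⟩ := Finset.mem_filter.1 hx
      obtain ⟨c1, c2⟩ := H.claimA b2 Z a1 a2 b0
      exact Finset.mem_erase.2 ⟨fun e => b0 (by rw [← a3.1 x, e, a2]),
        Finset.mem_filter.2 ⟨a3.mem b1, b2.tail ⟨a3.2 x c1, hD x b2, c2⟩⟩⟩) fun x _ => a3.1 x
  rw [← Finset.sum_erase_add T _ (Finset.mem_filter.2 ⟨ha', .refl⟩), s2] at s1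
  exact absurd s1 (by decide)

theorem perfect (hN : N ∈ L) {M : β → β} (hM : G.IsM M) (hp : ∀ v ∈ G.S, M v ≠ v) :
    ∀ v ∈ G.S, N v ≠ v := by
  classical
  intro v hv e
  set A := G.S.filter fun x => ¬D G L x ∧ ∃ z, D G L z ∧ G.adj z x with hA
  have b1 := (H.isM _ hN).1
  have hD : ∀ p ∈ insert v A, D G L (N p) ∧ (N (N p) = N p ∨ ¬D G L (N (N p))) := by
    intro p hp
    rcases Finset.mem_insert.1 hp with rfl | hp
    · exact ⟨e.symm ▸ ⟨hv, N, hN, e⟩, Or.inl (by rw [e, e])⟩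
    · obtain ⟨-, c1, z, c2, c3⟩ := Finset.mem_filter.1 hp
      exact ⟨H.claim1 hN c1 c2 c3, Or.inr (by rwa [b1])⟩
  choose! t t1 t2 t3 using fun p hp' => H.leave hM hp (hD p hp').1
  have := Finset.card_le_card_of_injOn (s := insert v A) (t := A) (fun p => M (t p))
    (fun p hp' => Finset.mem_filter.2 ⟨hM.mem (t2 p hp').1, t3 p hp', _, t2 p hp',
      hM.2 _ (hp _ (t2 p hp').1)⟩) fun p hp' q hq' e' => by
      have e2 : t p = t q := by rw [← hM.1 (t p), ← hM.1 (t q)]; exact congrArg M e'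
      have := H.claimB hN (hD p hp').1 (hD q hq').1
        (ReflTransGen.trans (t1 p hp') (e2 ▸ (t1 q hq').symm)) (hD p hp').2 (hD q hq').2
      rw [← b1 p, this, b1]
  rw [Finset.card_insert_of_notMem fun a => (Finset.mem_filter.1 a).2.1 ⟨hv, N, hN, e⟩] at this
  omega

end Sat

end Gr

end Pool.Agent.Shared.Matching
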